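import Mathlib

namespace Pool.Agent.Results.MP_68af1b_co.NonRealRoots

open Polynomial Finset

/-- The number of partitions of `{1,…,n}` into exactly `k` nonempty blocks, each of size at most
`m` (restricted Stirling number of the second kind). -/
def S (m n k : ℕ) : ℕ :=
  (Finset.univ.filter (fun P : Finpartition (Finset.Icc 1 n) =>
    P.parts.card = k ∧ ∀ b ∈ P.parts, b.card ≤ m)).card

/-- The restricted Bell polynomial `∑ₖ S(n,k)_{≤ m} xᵏ`. -/
noncomputable def bell (m n : ℕ) : ℝ[X] := ∑ k ∈ Finset.range (n + 1), C (S m n k : ℝ) * X ^ k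

/-! ### The recurrence -/

/-- weight of a partition -/
noncomputable def W (m : ℕ) {s : Finset ℕ} (P : Finpartition s) : ℝ[X] :=
  if ∀ b ∈ P.parts, b.card ≤ m then X ^ P.parts.card else 0

/-- weighted sum over partitions -/
noncomputable def Z (m : ℕ) (s : Finset ℕ) : ℝ[X] := ∑ P : Finpartition s, W m P

lemma bell_eq (m n : ℕ) : bell m n = Z m (Finset.Icc 1 n) := by
  unfold bell Z W S
  simp only [Finset.card_filter, Nat.cast_sum, map_sum, Finset.sum_mul]
  rw [Finset.sum_comm]
  apply Finset.sum_congr rfl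
  intro P _
  have hP : P.parts.card ≤ n := by
    have := P.card_parts_le_card
    simpa using this
  by_cases h : ∀ b ∈ P.parts, b.card ≤ m
  · rw [if_pos h, Finset.sum_eq_single P.parts.card]
    · rw [if_pos ⟨rfl, h⟩]; simp
    · intro k _ hk
      rw [if_neg (fun hh => hk hh.1.symm)]; simp
    · intro hk
      exact absurd (Finset.mem_range.mpr (by omega)) hk
  · rw [if_neg h]
    apply Finset.sum_eq_zero
    intro k _
    rw [if_neg (fun hh => h hh.2)]; simp

lemma avoid_parts {s : Finset ℕ} (P : Finpartition s) {b : Finset ℕ} (hb : b ∈ P.parts) :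
    (P.avoid b).parts = P.parts.erase b := by
  ext c
  rw [Finpartition.mem_avoid, Finset.mem_erase]
  constructor
  · rintro ⟨d, hd, hdb, rfl⟩
    have hne : d ≠ b := fun h => hdb (h ▸ le_rfl)
    have hdis : Disjoint d b := P.disjoint hd hb hne
    have : d \ b = d := sdiff_eq_left.mpr hdis
    rw [this]; exact ⟨hne, hd⟩
  · rintro ⟨hne, hc⟩
    have hdis : Disjoint c b := P.disjoint hc hb hne
    refine ⟨c, hc, ?_, sdiff_eq_left.mpr hdis⟩
    intro hle
    have : c = ⊥ := by
      have := hdis.mono_right hle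
      exact disjoint_self.mp this
    exact P.ne_bot hc this

lemma W_extend (m : ℕ) {s b : Finset ℕ} (hb : b ≠ ⊥) (hbs : b ⊆ s)
    (Q : Finpartition (s \ b)) :
    W m (Q.extend hb sdiff_disjoint (sdiff_sup_cancel hbs) : Finpartition s) =
      if b.card ≤ m then X * W m Q else 0 := by
  unfold W
  rw [Finpartition.card_extend]
  by_cases h : b.card ≤ m
  · rw [if_pos h]
    by_cases h2 : ∀ c ∈ Q.parts, c.card ≤ m
    · rw [if_pos h2, if_pos, pow_succ']
      intro c hc
      rw [Finpartition.extend_parts, Finset.mem_insert] at hc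
      rcases hc with rfl | hc
      · exact h
      · exact h2 c hc
    · rw [if_neg h2, if_neg, mul_zero]
      intro h3
      apply h2
      intro c hc
      apply h3
      rw [Finpartition.extend_parts, Finset.mem_insert]
      exact Or.inr hc
  · rw [if_neg h, if_neg]
    intro h3
    apply h
    apply h3
    rw [Finpartition.extend_parts, Finset.mem_insert]
    exact Or.inl rfl

lemma fibre_sum (m : ℕ) {s b : Finset ℕ} {a : ℕ} (hab : a ∈ b) (hbs : b ⊆ s) :
    ∑ P ∈ Finset.univ.filter (fun P : Finpartition s => P.part a = b), W m P =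
      if b.card ≤ m then X * Z m (s \ b) else 0 := by
  have hb : b ≠ ⊥ := by
    intro h; rw [h] at hab; simp at hab
  have has : a ∈ s := hbs hab
  have key : ∑ P ∈ Finset.univ.filter (fun P : Finpartition s => P.part a = b), W m P =
      ∑ Q : Finpartition (s \ b),
        W m (Q.extend hb sdiff_disjoint (sdiff_sup_cancel hbs) : Finpartition s) := by
    symm
    refine Finset.sum_bij'
      (fun Q _ => (Q.extend hb sdiff_disjoint (sdiff_sup_cancel hbs) : Finpartition s))
      (fun P _ => P.avoid b) ?_ ?_ ?_ ?_ ?_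
    · intro Q _
      rw [Finset.mem_filter]
      refine ⟨Finset.mem_univ _, ?_⟩
      apply Finpartition.part_eq_of_mem _ _ hab
      rw [Finpartition.extend_parts]; exact Finset.mem_insert_self _ _
    · intro P _; exact Finset.mem_univ _
    · intro Q _
      apply Finpartition.ext
      have hbQ : b ∉ Q.parts := by
        intro h
        have h1 := Q.le h
        have : b ≤ ⊥ := by
          have h2 : Disjoint (s \ b) b := sdiff_disjoint
          exact h2 h1 le_rfl
        exact hb (le_bot_iff.mp this)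
      rw [avoid_parts _ (by rw [Finpartition.extend_parts]; exact Finset.mem_insert_self _ _),
        Finpartition.extend_parts, Finset.erase_insert hbQ]
    · intro P hP
      rw [Finset.mem_filter] at hP
      apply Finpartition.ext
      have hbP : b ∈ P.parts := by
        rw [← hP.2]; exact P.part_mem.mpr has
      rw [Finpartition.extend_parts, avoid_parts P hbP, Finset.insert_erase hbP]
    · intro Q _; rfl
  rw [key]
  have hW : ∀ Q : Finpartition (s \ b),
      W m (Q.extend hb sdiff_disjoint (sdiff_sup_cancel hbs) : Finpartition s) =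
        if b.card ≤ m then X * W m Q else 0 := fun Q => W_extend m hb hbs Q
  rw [Finset.sum_congr rfl (fun Q _ => hW Q)]
  by_cases h : b.card ≤ m
  · simp only [if_pos h]
    rw [← Finset.mul_sum]; rfl
  · simp only [if_neg h]
    exact Finset.sum_const_zero

lemma Z_rec (m : ℕ) {s : Finset ℕ} {a : ℕ} (ha : a ∈ s) :
    Z m s = ∑ c ∈ (s.erase a).powerset,
      if c.card + 1 ≤ m then X * Z m ((s.erase a) \ c) else 0 := by
  have h1 : Z m s = ∑ b ∈ s.powerset.filter (fun b => a ∈ b),
      ∑ P ∈ Finset.univ.filter (fun P : Finpartition s => P.part a = b), W m P := by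
    unfold Z
    rw [Finset.sum_fiberwise_of_maps_to]
    intro P _
    rw [Finset.mem_filter, Finset.mem_powerset]
    exact ⟨P.part_subset a, P.mem_part_self.mpr ha⟩
  rw [h1]
  symm
  refine Finset.sum_bij' (fun c _ => insert a c) (fun b _ => b.erase a) ?_ ?_ ?_ ?_ ?_
  · intro c hc
    rw [Finset.mem_powerset] at hc
    rw [Finset.mem_filter, Finset.mem_powerset]
    refine ⟨?_, Finset.mem_insert_self _ _⟩
    apply Finset.insert_subset ha
    exact hc.trans (Finset.erase_subset _ _)
  · intro b hb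
    rw [Finset.mem_filter, Finset.mem_powerset] at hb
    rw [Finset.mem_powerset]
    exact Finset.erase_subset_erase _ hb.1
  · intro c hc
    rw [Finset.mem_powerset] at hc
    apply Finset.erase_insert
    intro h
    exact (Finset.notMem_erase a s) (hc h)
  · intro b hb
    rw [Finset.mem_filter] at hb
    exact Finset.insert_erase hb.2
  · intro c hc
    rw [Finset.mem_powerset] at hc
    have hac : a ∉ c := fun h => (Finset.notMem_erase a s) (hc h)
    rw [fibre_sum m (Finset.mem_insert_self a c)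
      (Finset.insert_subset ha (hc.trans (Finset.erase_subset _ _))),
      Finset.card_insert_of_notMem hac]
    have : s \ insert a c = s.erase a \ c := by
      ext y; simp only [Finset.mem_sdiff, Finset.mem_insert, Finset.mem_erase]; tauto
    rw [this]

lemma step (m n : ℕ) {s : Finset ℕ} (hs : s.card = n + 1)
    (ih : ∀ t : Finset ℕ, t.card ≤ n → Z m t = Z m (Finset.Icc 1 t.card)) :
    Z m s = ∑ j ∈ Finset.range (n + 1), n.choose j •
      (if j + 1 ≤ m then X * Z m (Finset.Icc 1 (n - j)) else 0) := by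
  obtain ⟨a, ha⟩ : s.Nonempty := by rw [← Finset.card_pos]; omega
  have hcard : (s.erase a).card = n := by rw [Finset.card_erase_of_mem ha]; omega
  rw [Z_rec m ha]
  have h2 := Finset.sum_powerset_apply_card
    (fun j => if j + 1 ≤ m then X * Z m (Finset.Icc 1 (n - j)) else 0) (x := s.erase a)
  rw [hcard] at h2
  rw [← h2]
  apply Finset.sum_congr rfl
  intro c hc
  rw [Finset.mem_powerset] at hc
  have h3 : (s.erase a \ c).card = n - c.card := by
    rw [Finset.card_sdiff_of_subset hc, hcard]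
  rw [ih (s.erase a \ c) (by omega), h3]

lemma Z_card (m : ℕ) : ∀ n : ℕ, ∀ s : Finset ℕ, s.card = n → Z m s = Z m (Finset.Icc 1 n) := by
  intro n
  induction n using Nat.strong_induction_on with
  | _ n ih =>
    intro s hs
    cases n with
    | zero =>
      rw [Finset.card_eq_zero] at hs
      subst hs
      rfl
    | succ n =>
      have ih' : ∀ t : Finset ℕ, t.card ≤ n → Z m t = Z m (Finset.Icc 1 t.card) :=
        fun t ht => ih t.card (by omega) t rfl
      rw [step m n hs ih', step m n (s := Finset.Icc 1 (n + 1)) (by simp) ih']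

lemma bell_succ (m n : ℕ) : bell m (n + 1) =
    ∑ j ∈ Finset.range m, (n.choose j : ℝ[X]) * (X * bell m (n - j)) := by
  rw [bell_eq, step m n (s := Finset.Icc 1 (n + 1)) (by simp)
    (fun t ht => Z_card m t.card t rfl)]
  have h1 : ∀ j ∈ Finset.range (n + 1), (n.choose j •
      (if j + 1 ≤ m then X * Z m (Finset.Icc 1 (n - j)) else 0) : ℝ[X]) =
      if j < m then (n.choose j : ℝ[X]) * (X * bell m (n - j)) else 0 := by
    intro j _
    rw [bell_eq]
    by_cases h : j < m
    · rw [if_pos h, if_pos (by omega), nsmul_eq_mul]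
    · rw [if_neg h, if_neg (by omega), smul_zero]
  rw [Finset.sum_congr rfl h1, ← Finset.sum_filter]
  apply Finset.sum_subset_zero_on_sdiff
  · intro j hj
    simp only [Finset.mem_filter, Finset.mem_range] at hj ⊢
    exact hj.2
  · intro j hj
    simp only [Finset.mem_sdiff, Finset.mem_filter, Finset.mem_range, not_and] at hj
    have : n < j := by
      by_contra hcon
      exact hj.2 (by omega) hj.1
    rw [Nat.choose_eq_zero_of_lt this]; simp
  · intro j _; rfl

lemma bell_zero (m : ℕ) : bell m 0 = 1 := by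
  rw [bell_eq]
  have h0 : Z m (⊥ : Finset ℕ) = 1 := by
    unfold Z
    rw [Fintype.sum_unique]
    unfold W
    have : (default : Finpartition (⊥ : Finset ℕ)).parts = ∅ :=
      Finpartition.parts_eq_empty_iff.mpr rfl
    rw [this]; simp
  exact h0

/-! ### Evaluation -/

/-- force evaluation of a natural number -/
def forceN {β : Type} (n : ℕ) (k : ℕ → β) : β :=
  match n with
  | 0 => k 0
  | m + 1 => k (m + 1)

/-- force evaluation of an integer -/
def forceZ {β : Type} (z : ℤ) (k : ℤ → β) : β :=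
  match z with
  | .ofNat n => forceN n (fun m => k (.ofNat m))
  | .negSucc n => forceN n (fun m => k (.negSucc m))

lemma forceN_eq {β : Type} (n : ℕ) (k : ℕ → β) : forceN n k = k n := by
  cases n <;> rfl

lemma forceZ_eq {β : Type} (z : ℤ) (k : ℤ → β) : forceZ z k = k z := by
  cases z with
  | ofNat n => exact forceN_eq n (fun m => k (.ofNat m))
  | negSucc n => exact forceN_eq n (fun m => k (.negSucc m))

/-- evaluation loop -/
def loop (x : ℤ) : ℕ → (c1 c2 c3 c4 : ℕ) → (a0 a1 a2 a3 a4 : ℤ) → (b0 b1 b2 b3 b4 : ℤ) →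
    (d0 d1 d2 d3 d4 : ℤ) → Bool
  | 0, _, _, _, _, a0, _, _, _, _, b0, _, _, _, _, d0, _, _, _, _ =>
    decide (b0 * b0 < a0 * d0)
  | f + 1, c1, c2, c3, c4, a0, a1, a2, a3, a4, b0, b1, b2, b3, b4, d0, d1, d2, d3, d4 =>
    forceN (c2 + c1) fun c2' => forceN (c3 + c2) fun c3' => forceN (c4 + c3) fun c4' =>
    forceZ (x * a0 + c1 * (x * a1) + c2 * (x * a2) + c3 * (x * a3) + c4 * (x * a4)) fun A =>
    forceZ ((a0 + x * b0) + c1 * (a1 + x * b1) + c2 * (a2 + x * b2) + c3 * (a3 + x * b3) +
      c4 * (a4 + x * b4)) fun B =>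
    forceZ ((2 * b0 + x * d0) + c1 * (2 * b1 + x * d1) + c2 * (2 * b2 + x * d2) +
      c3 * (2 * b3 + x * d3) + c4 * (2 * b4 + x * d4)) fun D =>
    loop x f (c1 + 1) c2' c3' c4' A a0 a1 a2 a3 B b0 b1 b2 b3 D d0 d1 d2 d3

set_option maxRecDepth 100000 in
lemma loop_check : loop (-1860) 720 0 0 0 0 1 1 1 1 1 0 0 0 0 0 0 0 0 0 0 = true := by
  decide +kernel

/-- value -/
noncomputable def va (x : ℤ) (n : ℕ) : ℝ := (bell 5 n).eval (x : ℝ)
/-- first derivative -/
noncomputable def vb (x : ℤ) (n : ℕ) : ℝ := (derivative (bell 5 n)).eval (x : ℝ)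
/-- second derivative -/
noncomputable def vd (x : ℤ) (n : ℕ) : ℝ := (derivative (derivative (bell 5 n))).eval (x : ℝ)

lemma bell5 (n : ℕ) : bell 5 (n + 1) = X * bell 5 n + (n : ℝ[X]) * (X * bell 5 (n - 1)) +
    (n.choose 2 : ℝ[X]) * (X * bell 5 (n - 2)) + (n.choose 3 : ℝ[X]) * (X * bell 5 (n - 3)) +
    (n.choose 4 : ℝ[X]) * (X * bell 5 (n - 4)) := by
  rw [bell_succ]
  simp only [Finset.sum_range_succ, Finset.sum_range_zero]
  simp

lemma va_succ (x : ℤ) (n : ℕ) : va x (n + 1) = x * va x n + n * (x * va x (n - 1)) +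
    (n.choose 2 : ℕ) * (x * va x (n - 2)) + (n.choose 3 : ℕ) * (x * va x (n - 3)) +
    (n.choose 4 : ℕ) * (x * va x (n - 4)) := by
  unfold va
  rw [bell5]
  simp

lemma vb_succ (x : ℤ) (n : ℕ) : vb x (n + 1) = (va x n + x * vb x n) +
    n * (va x (n - 1) + x * vb x (n - 1)) +
    (n.choose 2 : ℕ) * (va x (n - 2) + x * vb x (n - 2)) +
    (n.choose 3 : ℕ) * (va x (n - 3) + x * vb x (n - 3)) +
    (n.choose 4 : ℕ) * (va x (n - 4) + x * vb x (n - 4)) := by
  unfold va vb
  rw [bell5]
  simp [derivative_mul]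

lemma vd_succ (x : ℤ) (n : ℕ) : vd x (n + 1) = (2 * vb x n + x * vd x n) +
    n * (2 * vb x (n - 1) + x * vd x (n - 1)) +
    (n.choose 2 : ℕ) * (2 * vb x (n - 2) + x * vd x (n - 2)) +
    (n.choose 3 : ℕ) * (2 * vb x (n - 3) + x * vd x (n - 3)) +
    (n.choose 4 : ℕ) * (2 * vb x (n - 4) + x * vd x (n - 4)) := by
  unfold vb vd
  rw [bell5]
  simp [derivative_mul]
  ring

lemma loop_spec (x : ℤ) : ∀ (f n : ℕ) (a0 a1 a2 a3 a4 b0 b1 b2 b3 b4 d0 d1 d2 d3 d4 : ℤ),
    (a0 : ℝ) = va x n → (a1 : ℝ) = va x (n - 1) → (a2 : ℝ) = va x (n - 2) →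
    (a3 : ℝ) = va x (n - 3) → (a4 : ℝ) = va x (n - 4) →
    (b0 : ℝ) = vb x n → (b1 : ℝ) = vb x (n - 1) → (b2 : ℝ) = vb x (n - 2) →
    (b3 : ℝ) = vb x (n - 3) → (b4 : ℝ) = vb x (n - 4) →
    (d0 : ℝ) = vd x n → (d1 : ℝ) = vd x (n - 1) → (d2 : ℝ) = vd x (n - 2) →
    (d3 : ℝ) = vd x (n - 3) → (d4 : ℝ) = vd x (n - 4) →
    loop x f n (n.choose 2) (n.choose 3) (n.choose 4) a0 a1 a2 a3 a4 b0 b1 b2 b3 b4
      d0 d1 d2 d3 d4 = true →
    vb x (n + f) * vb x (n + f) < va x (n + f) * vd x (n + f) := by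
  intro f
  induction f with
  | zero =>
    intro n a0 a1 a2 a3 a4 b0 b1 b2 b3 b4 d0 d1 d2 d3 d4 ha0 _ _ _ _ hb0 _ _ _ _ hd0 _ _ _ _ h
    unfold loop at h
    rw [decide_eq_true_iff] at h
    rw [Nat.add_zero, ← ha0, ← hb0, ← hd0]
    exact_mod_cast h
  | succ f ih =>
    intro n a0 a1 a2 a3 a4 b0 b1 b2 b3 b4 d0 d1 d2 d3 d4 ha0 ha1 ha2 ha3 ha4 hb0 hb1 hb2 hb3 hb4
      hd0 hd1 hd2 hd3 hd4 h
    rw [loop] at h
    simp only [forceN_eq, forceZ_eq] at h
    have hc2 : n.choose 2 + n = (n + 1).choose 2 := by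
      rw [Nat.choose_succ_succ' n 1, Nat.choose_one_right]; ring
    have hc3 : n.choose 3 + n.choose 2 = (n + 1).choose 3 := by
      rw [Nat.choose_succ_succ' n 2]; ring
    have hc4 : n.choose 4 + n.choose 3 = (n + 1).choose 4 := by
      rw [Nat.choose_succ_succ' n 3]; ring
    rw [hc2, hc3, hc4] at h
    have h2 := ih (n + 1) _ _ _ _ _ _ _ _ _ _ _ _ _ _ _ ?_ ?_ ?_ ?_ ?_ ?_ ?_ ?_ ?_ ?_ ?_ ?_ ?_
      ?_ ?_ h
    · have : n + 1 + f = n + (f + 1) := by ring
      rwa [this] at h2
    · rw [va_succ, ← ha0, ← ha1, ← ha2, ← ha3, ← ha4]; push_cast; ring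
    · exact ha0
    · exact ha1
    · exact ha2
    · exact ha3
    · rw [vb_succ, ← ha0, ← ha1, ← ha2, ← ha3, ← ha4, ← hb0, ← hb1, ← hb2, ← hb3, ← hb4]
      push_cast; ring
    · exact hb0
    · exact hb1
    · exact hb2
    · exact hb3
    · rw [vd_succ, ← hb0, ← hb1, ← hb2, ← hb3, ← hb4, ← hd0, ← hd1, ← hd2, ← hd3, ← hd4]
      push_cast; ring
    · exact hd0
    · exact hd1
    · exact hd2
    · exact hd3

lemma va_zero (x : ℤ) : va x 0 = 1 := by unfold va; rw [bell_zero]; simp
lemma vb_zero (x : ℤ) : vb x 0 = 0 := by unfold vb; rw [bell_zero]; simp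
lemma vd_zero (x : ℤ) : vd x 0 = 0 := by unfold vd; rw [bell_zero]; simp

lemma ineq : vb (-1860) 720 * vb (-1860) 720 < va (-1860) 720 * vd (-1860) 720 := by
  have h := loop_spec (-1860) 720 0 1 1 1 1 1 0 0 0 0 0 0 0 0 0 0
    (by simp [va_zero]) (by simp [va_zero]) (by simp [va_zero]) (by simp [va_zero])
    (by simp [va_zero]) (by simp [vb_zero]) (by simp [vb_zero]) (by simp [vb_zero])
    (by simp [vb_zero]) (by simp [vb_zero]) (by simp [vd_zero]) (by simp [vd_zero])
    (by simp [vd_zero]) (by simp [vd_zero]) (by simp [vd_zero]) loop_check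
  rwa [Nat.zero_add] at h

/-! ### The Laguerre inequality -/

lemma laguerre_prod (M : Multiset ℝ) (x : ℝ) :
    0 ≤ (derivative ((M.map (fun a => X - C a)).prod)).eval x ^ 2 -
      ((M.map (fun a => X - C a)).prod).eval x *
        (derivative (derivative ((M.map (fun a => X - C a)).prod))).eval x := by
  induction M using Multiset.induction_on with
  | empty => simp
  | cons r M ih =>
    rw [Multiset.map_cons, Multiset.prod_cons]
    set g : ℝ[X] := (M.map (fun a => X - C a)).prod with hg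
    simp only [derivative_mul, derivative_sub, derivative_X, derivative_C, sub_zero, one_mul,
      derivative_add, eval_add, eval_mul, eval_sub, eval_X, eval_C]
    have h1 : 0 ≤ (x - r) ^ 2 * ((derivative g).eval x ^ 2 -
        g.eval x * (derivative (derivative g)).eval x) := mul_nonneg (sq_nonneg _) ih
    have h2 : 0 ≤ (g.eval x) ^ 2 := sq_nonneg _
    nlinarith [h1, h2]

lemma laguerre {p : ℝ[X]} (hp : p.Splits) (x : ℝ) :
    p.eval x * (derivative (derivative p)).eval x ≤ (derivative p).eval x ^ 2 := by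
  rw [hp.eq_prod_roots]
  have h := laguerre_prod p.roots x
  set g : ℝ[X] := (p.roots.map (fun a => X - C a)).prod with hg
  simp only [derivative_C_mul, eval_mul, eval_C]
  nlinarith [mul_nonneg (sq_nonneg p.leadingCoeff) h]

/-- `m = 5`, `n = 720`: the restricted Bell polynomial has a non-real root. -/
theorem result : ∃ m n : ℕ, 1 ≤ m ∧ m ≠ 3 ∧ m ≠ 4 ∧ 1 ≤ n ∧
    ∃ z : ℂ, aeval z (bell m n) = 0 ∧ z.im ≠ 0 := by
  refine ⟨5, 720, by norm_num, by norm_num, by norm_num, by norm_num, ?_⟩
  by_contra hcon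
  push Not at hcon
  have hsplit : (bell 5 720).Splits := by
    apply Splits.of_splits_map_of_injective (i := algebraMap ℝ ℂ) (algebraMap ℝ ℂ).injective
      (IsAlgClosed.splits _)
    intro a ha
    have h1 : aeval a (bell 5 720) = 0 := by
      have := (Polynomial.mem_roots'.mp ha).2
      rw [IsRoot.def, eval_map] at this
      exact this
    have h2 := hcon a h1
    exact ⟨a.re, by apply Complex.ext <;> simp [h2]⟩
  have h3 := laguerre hsplit ((-1860 : ℤ) : ℝ)
  have h4 := ineq
  unfold va vb vd at h4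
  nlinarith

end Pool.Agent.Results.MP_68af1b_co.NonRealRoots
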